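import Pool.Agent.Helper97.Tate.Goals

/-!
Packet TATE-SGR (project FewPoints, MP_d3128a_ag): strict growth, abstract form.
-/

set_option autoImplicit false

noncomputable section

namespace Pool.Agent.Helper12.Tate.SGR

open Pool.Agent.Helper97.Tate Module

variable {K : Type} [Field K] {U : Type} [AddCommGroup U] [Module K U] {κ : ℕ}

/-- the synthesis map -/
def Phi (col : ℕ → Fin κ → U) (n : ℕ) : (Fin n → Fin κ → K) →ₗ[K] U :=
  ∑ j : Fin n, ∑ r : Fin κ,
    ((LinearMap.proj r ∘ₗ LinearMap.proj j : (Fin n → Fin κ → K) →ₗ[K] K)).smulRight (col j r)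

theorem Phi_apply (col : ℕ → Fin κ → U) (n : ℕ) (a : Fin n → Fin κ → K) :
    Phi col n a = ∑ j : Fin n, ∑ r, a j r • col j r := by
  unfold Phi
  simp only [LinearMap.sum_apply, LinearMap.smulRight_apply, LinearMap.comp_apply,
    LinearMap.proj_apply]

variable (K) in
/-- the span of the first `n` blocks of columns -/
def RR (col : ℕ → Fin κ → U) (n : ℕ) : Submodule K U :=
  Submodule.span K {u | ∃ j < n, ∃ r', u = col j r'}

theorem mem_RR (col : ℕ → Fin κ → U) {n j : ℕ} (h : j < n) (r : Fin κ) : col j r ∈ RR K col n :=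
  Submodule.subset_span ⟨j, h, r, rfl⟩

theorem RR_mono (col : ℕ → Fin κ → U) {m n : ℕ} (h : m ≤ n) : RR K col m ≤ RR K col n := by
  apply Submodule.span_mono
  rintro u ⟨j, hj, r, rfl⟩
  exact ⟨j, lt_of_lt_of_le hj h, r, rfl⟩

theorem range_Phi (col : ℕ → Fin κ → U) (n : ℕ) :
    LinearMap.range (Phi (K := K) col n) = RR K col n := by
  apply le_antisymm
  · rintro _ ⟨a, rfl⟩
    rw [Phi_apply]
    apply Submodule.sum_mem
    intro j _
    apply Submodule.sum_mem
    intro r _
    exact Submodule.smul_mem _ _ (mem_RR col j.2 r)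
  · unfold RR
    rw [Submodule.span_le]
    rintro u ⟨j, hj, r, rfl⟩
    refine ⟨Pi.single (⟨j, hj⟩ : Fin n) (Pi.single r 1), ?_⟩
    rw [Phi_apply, Finset.sum_eq_single (⟨j, hj⟩ : Fin n)]
    · rw [Finset.sum_eq_single r]
      · simp
      · intro r' _ hr'
        simp [hr']
      · intro h
        exact absurd (Finset.mem_univ _) h
    · intro j' _ hj'
      apply Finset.sum_eq_zero
      intro r' _
      simp [hj']
    · intro h
      exact absurd (Finset.mem_univ _) h

/-- stationary spans stay stationary -/
theorem stat (col : ℕ → Fin κ → U)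
    (h1 : ∀ n, (∀ r, col n r ∈ RR K col n) → ∀ r, col (n + 1) r ∈ RR K col n)
    (h2 : Submodule.span K (Set.range fun p : ℕ × Fin κ => col p.1 p.2) = ⊤) (n : ℕ)
    (h : ∀ r, col n r ∈ RR K col n) : RR K col n = ⊤ := by
  have key : ∀ t : ℕ, (∀ r, col (n + t) r ∈ RR K col n) ∧ RR K col (n + t) = RR K col n := by
    intro t
    induction t with
    | zero => exact ⟨h, rfl⟩
    | succ t ih =>
      obtain ⟨i1, i2⟩ := ih
      have h3 : ∀ r, col (n + t) r ∈ RR K col (n + t) := by
        intro r
        rw [i2]
        exact i1 r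
      have h4 := h1 (n + t) h3
      refine ⟨fun r => by rw [← i2]; exact h4 r, ?_⟩
      apply le_antisymm
      · unfold RR
        rw [Submodule.span_le]
        rintro u ⟨j, hj, r, rfl⟩
        by_cases hjt : j = n + t
        · subst hjt
          exact i1 r
        · have h5 : col j r ∈ RR K col (n + t) := mem_RR col (by omega) r
          rw [i2] at h5
          exact h5
      · exact RR_mono col (by omega)
  rw [eq_top_iff, ← h2, Submodule.span_le]
  rintro _ ⟨⟨j, r⟩, rfl⟩
  show col j r ∈ RR K col n
  by_cases hj : j < n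
  · exact mem_RR col hj r
  · obtain ⟨t, rfl⟩ := Nat.exists_eq_add_of_le (not_lt.mp hj)
    exact (key t).1 r

theorem t : S_SGR := by
  intro K _ U _ _ _ κ ℓ lam w col h1 h2 h3 h4 h5
  have h1' : ∀ n, (∀ r, col n r ∈ RR K col n) → ∀ r, col (n + 1) r ∈ RR K col n := h1
  have h6 : finrank K (RR K col ℓ) = κ * ℓ := by
    rw [← range_Phi, LinearMap.finrank_range_of_inj]
    · rw [Module.finrank_pi_fintype]
      simp [mul_comm]
    · rw [← LinearMap.ker_eq_bot, LinearMap.ker_eq_bot']
      intro a ha
      rw [Phi_apply] at ha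
      exact h3 a ha
  have h7 : ∀ t : ℕ, min (finrank K U) (κ * ℓ + t) ≤ finrank K (RR K col (ℓ + t)) := by
    intro t
    induction t with
    | zero =>
      rw [add_zero, add_zero, h6]
      exact min_le_right _ _
    | succ t ih =>
      by_cases hs : ∀ r, col (ℓ + t) r ∈ RR K col (ℓ + t)
      · have h8 := stat col h1' h2 (ℓ + t) hs
        have h9 : RR K col (ℓ + (t + 1)) = ⊤ := by
          rw [eq_top_iff, ← h8]
          exact RR_mono col (by omega)
        rw [h9, finrank_top]
        exact min_le_left _ _
      · have h8 : RR K col (ℓ + t) < RR K col (ℓ + (t + 1)) := by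
          refine lt_of_le_of_ne (RR_mono col (by omega)) ?_
          intro he
          apply hs
          intro r
          rw [he]
          exact mem_RR col (by omega) r
        have h9 := Submodule.finrank_lt_finrank_of_lt h8
        have h10 : κ * ℓ + (t + 1) = (κ * ℓ + t) + 1 := rfl
        rw [h10]
        omega
  have h8 : RR K col lam = ⊤ := by
    have h9 := h7 w
    have h10 : RR K col (ℓ + w) = ⊤ := by
      apply Submodule.eq_top_of_finrank_eq
      apply le_antisymm
      · exact Submodule.finrank_le _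
      · rw [min_eq_left h4] at h9
        exact h9
    rw [eq_top_iff, ← h10]
    exact RR_mono col h5
  have h9 := LinearMap.finrank_range_add_finrank_ker (Phi (K := K) col lam)
  rw [range_Phi, h8, finrank_top, Module.finrank_pi_fintype] at h9
  have h10 : finrank K (LinearMap.ker (Phi (K := K) col lam)) + finrank K U = κ * lam := by
    rw [add_comm, h9]
    simp [mul_comm]
  exact h10.le

end Pool.Agent.Helper12.Tate.SGR
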