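import Pool.Agent.Helper97.Tate.Goals

/-!
Packet TATE-STR (project FewPoints, MP_d3128a_ag): the strips are unisolvent.
-/

set_option autoImplicit false

noncomputable section

namespace Pool.Agent.Helper12.Tate.STR

open Pool.Agent.Helper97.Tate

/-- the number of the line `X` (`a = κ P`) -/
def pii (a R M X : ℤ) : ℤ :=
  if 2 * a < R then
    (if X < 0 then M - 2 * (X + a) else if R - 2 * X < 2 * a then M - (R - 2 * X) else X)
  else
    (if 2 * (X + a) < R then M - 2 * (X + a) else if 1 ≤ X then M - (R - 2 * X) else -X)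

theorem pii_inj (a R M X X' : ℤ) (h : 2 * a + R = 2 * M + 1) (h1 : -a < X) (h2 : 2 * X < R)
    (h1' : -a < X') (h2' : 2 * X' < R) (he : (pii a R M X).toNat = (pii a R M X').toNat) :
    X = X' := by
  have k1 := h1
  have k2 := h2
  have k1' := h1'
  have k2' := h2'
  unfold pii at he
  split_ifs at he <;> omega

theorem pii_cnt (a R M X : ℤ) (hR : 0 ≤ R) (h : 2 * a + R = 2 * M + 1) (ha : 0 < a)
    (h1 : -a < X) (h2 : 2 * X < R) :
    (((min R (2 * (X + a)) - max 0 (2 * X)).toNat + (pii a R M X).toNat : ℕ) : ℤ) ≤ M := by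
  unfold pii
  split_ifs <;> omega

theorem mem (P κ R : ℕ) (s : ℤ) (p : ℤ × ℤ) (hp : p ∈ strip P κ (P * R) s) :
    0 ≤ p.1 ∧ p.1 < P * R ∧ 2 * P * (p.1 - P * p.2 + P * s) ≤ p.1 ∧
      p.1 < 2 * P * ((p.1 - P * p.2 + P * s) + κ * P) := by
  unfold strip at hp
  rw [Finset.mem_filter, Finset.mem_product, Finset.mem_Ico] at hp
  obtain ⟨⟨⟨h0, h1⟩, -⟩, h2, h3⟩ := hp
  push_cast at h1
  refine ⟨h0, h1, ?_, ?_⟩
  · nlinarith
  · nlinarith

theorem t (h1 : S_COL) : S_STR := by
  intro P κ M R s hP hκ hM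
  have hP' : (0 : ℤ) < P := by exact_mod_cast hP
  have hM' : 2 * ((κ : ℤ) * P) + R = 2 * M + 1 := by
    have : ((2 * κ * P + R : ℕ) : ℤ) = ((2 * M + 1 : ℕ) : ℤ) := by rw [hM]
    push_cast at this
    linarith
  have ha : (0 : ℤ) < (κ : ℤ) * P := by
    have hκ' : (0 : ℤ) < κ := by exact_mod_cast hκ
    positivity
  -- the ranges of the lines
  have hr : ∀ p ∈ strip P κ (P * R) s,
      -((κ : ℤ) * P) < p.1 - P * p.2 + P * s ∧ 2 * (p.1 - P * p.2 + P * s) < R := by
    intro p hp
    obtain ⟨a0, a1, a2, a3⟩ := mem P κ R s p hp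
    constructor
    · have h5 : 0 < 2 * (P : ℤ) * ((p.1 - P * p.2 + P * s) + κ * P) := lt_of_le_of_lt a0 a3
      have h6 : 0 < (p.1 - P * p.2 + P * s) + (κ : ℤ) * P :=
        pos_of_mul_pos_right h5 (by positivity)
      linarith
    · have h5 : (P : ℤ) * (2 * (p.1 - P * p.2 + P * s)) < P * R := by linarith
      exact lt_of_mul_lt_mul_left h5 hP'.le
  apply h1 M _ (P : ℤ) (fun Z => (pii ((κ : ℤ) * P) R M (Z + P * s)).toNat)
  · intro p hp p' hp' he
    obtain ⟨b1, b2⟩ := hr p hp
    obtain ⟨b1', b2'⟩ := hr p' hp'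
    have h5 := pii_inj ((κ : ℤ) * P) R M _ _ hM' b1 b2 b1' b2' he
    linarith
  · intro p hp
    obtain ⟨b1, b2⟩ := hr p hp
    have hc := pii_cnt ((κ : ℤ) * P) R M _ (by positivity) hM' ha b1 b2
    have h5 : ((strip P κ (P * R) s).filter fun p' =>
        p'.1 - (P : ℤ) * p'.2 = p.1 - P * p.2).card ≤
        (min (R : ℤ) (2 * ((p.1 - P * p.2 + P * s) + (κ : ℤ) * P)) -
          max 0 (2 * (p.1 - P * p.2 + P * s))).toNat := by
      rw [← Int.card_Ico]
      apply Finset.card_le_card_of_injOn (fun p' : ℤ × ℤ => p'.1 / (P : ℤ))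
      · intro p' hp'
        rw [Finset.mem_coe, Finset.mem_filter] at hp'
        obtain ⟨hp1, hp2⟩ := hp'
        obtain ⟨a0, a1, a2, a3⟩ := mem P κ R s p' hp1
        rw [hp2] at a2 a3
        rw [Finset.mem_coe, Finset.mem_Ico]
        constructor
        · rw [max_le_iff]
          constructor
          · exact Int.ediv_nonneg a0 hP'.le
          · rw [Int.le_ediv_iff_mul_le hP']
            linarith
        · rw [lt_min_iff]
          constructor
          · rw [Int.ediv_lt_iff_lt_mul hP']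
            linarith
          · rw [Int.ediv_lt_iff_lt_mul hP']
            linarith
      · intro p1 hp1 p2 hp2 he
        rw [Finset.mem_coe, Finset.mem_filter] at hp1 hp2
        have e1 := hp1.2
        have e2 := hp2.2
        have he' : p1.1 / (P : ℤ) = p2.1 / (P : ℤ) := he
        have e3 : p1.1 = p2.1 + P * (p1.2 - p2.2) := by linarith
        have e4 : p1.1 / (P : ℤ) = p2.1 / (P : ℤ) + (p1.2 - p2.2) := by
          rw [e3, Int.add_mul_ediv_left _ _ hP'.ne']
        have e5 : p1.2 = p2.2 := by linarith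
        have e6 : p1.1 = p2.1 := by
          rw [e3, e5, sub_self, mul_zero, add_zero]
        exact Prod.ext e6 e5
    have h6 : (((strip P κ (P * R) s).filter fun p' =>
        p'.1 - (P : ℤ) * p'.2 = p.1 - P * p.2).card +
          (pii ((κ : ℤ) * P) R M (p.1 - P * p.2 + P * s)).toNat : ℕ) ≤ M := by
      have h7 := add_le_add_left h5 ((pii ((κ : ℤ) * P) R M (p.1 - P * p.2 + P * s)).toNat)
      have h8 : (min (R : ℤ) (2 * ((p.1 - P * p.2 + P * s) + (κ : ℤ) * P)) -
          max 0 (2 * (p.1 - P * p.2 + P * s))).toNat +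
          (pii ((κ : ℤ) * P) R M (p.1 - P * p.2 + P * s)).toNat ≤ M := by
        exact_mod_cast hc
      omega
    exact h6

end Pool.Agent.Helper12.Tate.STR
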